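import Pool.Agent.H56.GJ.Def
import Pool.Agent.H93.EO.LsuA
set_option autoImplicit false

/-!
# H56/GJ/Chi: measurable choice in large sections, with parameters

Adapt H93/EO/LsuA.lean, LsuB.lean, Lsu.lean (there `B ⊆ X × X`, structure `GenStr`, of which only `gen`,
`mono`, `nat`, `cq` are used) to `B ⊆ Q × X` and the quantifier `r ↦ I.gen (π r)`. (If
`¬ gen x (y ∉ A)` then `A` is nonempty by `I.all`, `I.mono`.) Where nothing is to be chosen let
`s r = π r`.
-/

namespace Pool.Agent.H56.GJ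

open Set Topology Pool.Agent.H93.EO Pool.Agent.H56.MG Pool.Agent.H56.GI

private theorem chi_aux {Z X : Type} [t0 : TopologicalSpace Z] [PolishSpace Z]
    [MeasurableSpace Z] [BorelSpace Z] [TopologicalSpace X] [T2Space X] (f : Z → X)
    (hf : Continuous f) (B : Set Z) (hB : IsClosed B) :
    ∃ K : ℕ → ℕ → Set Z, (∀ k i, MeasurableSet (K k i)) ∧ (∀ k p, ∃ i, p ∈ K k i) ∧
      ∀ (x : X) (i : ℕ → ℕ), (∀ n : ℕ, ∃ z, f z = x ∧ z ∈ B ∧ ∀ k ≤ n, z ∈ K k (i k)) →
        ∃ z, (f z = x ∧ z ∈ B ∧ ∀ k, z ∈ K k (i k)) ∧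
          ∀ z', (∀ k, z' ∈ K k (i k)) → z' = z := by
  letI := TopologicalSpace.upgradeIsCompletelyMetrizable Z
  rcases isEmpty_or_nonempty Z with h | h
  · refine ⟨fun _ _ => ∅, fun _ _ => MeasurableSet.empty, fun _ p => isEmptyElim p,
      fun x i hx => ?_⟩
    obtain ⟨z, _⟩ := hx 0
    exact isEmptyElim z
  · have hlim : Filter.Tendsto (fun k : ℕ => 2 * (1 / 2 : ℝ) ^ k) Filter.atTop (𝓝 0) := by
      have h1 := (tendsto_pow_atTop_nhds_zero_of_lt_one (r := (1 / 2 : ℝ)) (by norm_num)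
        (by norm_num)).const_mul 2
      simpa using h1
    refine ⟨fun k i => Metric.closedBall (TopologicalSpace.denseSeq Z i) ((1 / 2) ^ k),
      fun k i => Metric.isClosed_closedBall.measurableSet, fun k p => ?_, fun x i hx => ?_⟩
    · obtain ⟨i, hi⟩ := (TopologicalSpace.denseRange_denseSeq Z).exists_dist_lt p
        (pow_pos (by norm_num) k : (0 : ℝ) < (1 / 2) ^ k)
      exact ⟨i, hi.le⟩
    · choose z hz1 hz2 hz3 using hx
      have hc : CauchySeq z := by
        refine cauchySeq_of_le_tendsto_0 (fun k : ℕ => 2 * (1 / 2 : ℝ) ^ k) ?_ hlim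
        intro n m N hn hm
        have h1 := hz3 n N hn
        have h2 := hz3 m N hm
        rw [Metric.mem_closedBall] at h1 h2
        have h3 := dist_triangle_right (z n) (z m) (TopologicalSpace.denseSeq Z (i N))
        linarith
      obtain ⟨p, hp⟩ := cauchySeq_tendsto_of_complete hc
      have hpK : ∀ k, p ∈ Metric.closedBall (TopologicalSpace.denseSeq Z (i k))
          ((1 / 2 : ℝ) ^ k) := fun k =>
        Metric.isClosed_closedBall.mem_of_tendsto hp
          ((Filter.eventually_ge_atTop k).mono fun n hn => hz3 n k hn)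
      refine ⟨p, ⟨?_, hB.mem_of_tendsto hp (Filter.Eventually.of_forall hz2), hpK⟩, ?_⟩
      · have h1 : Filter.Tendsto (fun n => f (z n)) Filter.atTop (𝓝 (f p)) :=
          (hf.tendsto p).comp hp
        simp only [hz1] at h1
        exact (tendsto_nhds_unique h1 tendsto_const_nhds)
      · intro z' hz'
        have h1 : ∀ k : ℕ, dist z' p ≤ 2 * (1 / 2 : ℝ) ^ k := by
          intro k
          have h2 := hz' k
          have h3 := hpK k
          rw [Metric.mem_closedBall] at h2 h3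
          have h4 := dist_triangle_right z' p (TopologicalSpace.denseSeq Z (i k))
          linarith
        have h2 : dist z' p ≤ 0 := ge_of_tendsto' hlim h1
        exact dist_le_zero.1 h2

private theorem chi_cov {Q X : Type} [MeasurableSpace Q] [StandardBorelSpace Q] [MeasurableSpace X]
    [StandardBorelSpace X] {B : Set (Q × X)}
    (hB : MeasurableSet B) : ∃ K : ℕ → ℕ → Set (Q × X), (∀ k i, MeasurableSet (K k i)) ∧
      (∀ k p, p ∈ B → ∃ i, p ∈ K k i) ∧
      ∀ (x : Q) (i : ℕ → ℕ), (∀ n : ℕ, ∃ y, (x, y) ∈ B ∧ ∀ k ≤ n, (x, y) ∈ K k (i k)) →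
        ∃ y, ((x, y) ∈ B ∧ ∀ k, (x, y) ∈ K k (i k)) ∧
          ∀ y', ((x, y') ∈ B ∧ ∀ k, (x, y') ∈ K k (i k)) → y' = y := by
  letI := upgradeStandardBorel X
  letI := upgradeStandardBorel Q
  obtain ⟨t', ht1, ht2, ht3, ht4⟩ := hB.isClopenable
  have hbor : @BorelSpace (Q × X) t' inferInstance := by
    refine @BorelSpace.mk _ t' _ ?_
    rw [MeasureTheory.borel_eq_borel_of_le (t := t') (t' := instTopologicalSpaceProd) ht2
      inferInstance ht1]
    exact BorelSpace.measurable_eq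
  have hcont : @Continuous (Q × X) Q t' inferInstance Prod.fst :=
    continuous_le_dom ht1 continuous_fst
  obtain ⟨K, hK1, hK2, hK3⟩ := @chi_aux (Q × X) Q t' ht2 _ hbor _ _ Prod.fst hcont B ht3
  refine ⟨K, hK1, fun k p _ => hK2 k p, fun x i h => ?_⟩
  obtain ⟨z, ⟨hz1, hz2, hz3⟩, hz4⟩ := hK3 x i (fun n => by
    obtain ⟨y, hy1, hy2⟩ := h n
    exact ⟨(x, y), rfl, hy1, hy2⟩)
  obtain ⟨z1, z2⟩ := z
  obtain rfl : z1 = x := hz1
  refine ⟨z2, ⟨hz2, hz3⟩, fun y' hy' => ?_⟩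
  have h1 := hz4 (z1, y') hy'.2
  exact (Prod.ext_iff.1 h1).2


section Abs

variable {Q X : Type} [MeasurableSpace Q] [MeasurableSpace X]

/-- the decreasing sections -/
private noncomputable def cutq (gen : Q → (X → Prop) → Prop) (K : ℕ → ℕ → Set (Q × X))
    (B : Set (Q × X)) : ℕ → Q → Set X
  | 0, x => {y | (x, y) ∈ B}
  | k + 1, x => {y | y ∈ cutq gen K B k x ∧
      (x, y) ∈ K k (sInf {i | ¬ gen x fun y => ¬ (y ∈ cutq gen K B k x ∧ (x, y) ∈ K k i)})}

/-- the indices -/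
private noncomputable def idxq (gen : Q → (X → Prop) → Prop) (K : ℕ → ℕ → Set (Q × X))
    (B : Set (Q × X)) (k : ℕ) (x : Q) : ℕ :=
  sInf {i | ¬ gen x fun y => ¬ (y ∈ cutq gen K B k x ∧ (x, y) ∈ K k i)}

private theorem cutq_zero (gen : Q → (X → Prop) → Prop) (K : ℕ → ℕ → Set (Q × X))
    (B : Set (Q × X)) (x : Q) : cutq gen K B 0 x = {y | (x, y) ∈ B} := rfl

private theorem cutq_succ (gen : Q → (X → Prop) → Prop) (K : ℕ → ℕ → Set (Q × X))
    (B : Set (Q × X)) (k : ℕ) (x : Q) : cutq gen K B (k + 1) x =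
      {y | y ∈ cutq gen K B k x ∧ (x, y) ∈ K k (idxq gen K B k x)} := rfl

private theorem mem_cutq_iff (gen : Q → (X → Prop) → Prop) (K : ℕ → ℕ → Set (Q × X))
    (B : Set (Q × X)) (n : ℕ) (x : Q) (y : X) :
    y ∈ cutq gen K B n x ↔ (x, y) ∈ B ∧ ∀ k < n, (x, y) ∈ K k (idxq gen K B k x) := by
  induction n with
  | zero =>
    rw [cutq_zero]
    simp
  | succ n ih =>
    rw [cutq_succ, mem_setOf_eq, ih]
    constructor
    · rintro ⟨⟨h1, h2⟩, h3⟩
      refine ⟨h1, fun k hk => ?_⟩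
      rcases (Nat.lt_succ_iff_lt_or_eq.1 hk) with h | h
      · exact h2 k h
      · rw [h]
        exact h3
    · rintro ⟨h1, h2⟩
      exact ⟨⟨h1, fun k hk => h2 k (Nat.lt_succ_of_lt hk)⟩, h2 n (Nat.lt_succ_self n)⟩

private theorem sInf_eq_succq (s : Set ℕ) (i : ℕ) :
    sInf s = i + 1 ↔ i + 1 ∈ s ∧ ∀ j ≤ i, j ∉ s := by
  constructor
  · intro h
    have hne : s.Nonempty := by
      rw [Set.nonempty_iff_ne_empty]
      intro h0
      rw [h0, Nat.sInf_empty] at h
      omega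
    refine ⟨h ▸ Nat.sInf_mem hne, fun j hj => Nat.notMem_of_lt_sInf ?_⟩
    omega
  · rintro ⟨h1, h2⟩
    refine le_antisymm (Nat.sInf_le h1) ?_
    by_contra hlt
    exact h2 (sInf s) (by omega) (Nat.sInf_mem ⟨_, h1⟩)

private theorem idxq_meas_of (gen : Q → (X → Prop) → Prop)
    (cq : ∀ A : Q → X → Prop, MeasurableSet {q : Q × X | A q.1 q.2} →
      MeasurableSet {r : Q | gen r (A r)}) {K : ℕ → ℕ → Set (Q × X)}
    (hK : ∀ k i, MeasurableSet (K k i)) {B : Set (Q × X)} (k : ℕ)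
    (hc : MeasurableSet {p : Q × X | p.2 ∈ cutq gen K B k p.1}) :
    Measurable (idxq gen K B k) := by
  have hA : ∀ i, MeasurableSet {x : Q | ¬ gen x fun y =>
      ¬ (y ∈ cutq gen K B k x ∧ (x, y) ∈ K k i)} := by
    intro i
    have h1 : MeasurableSet {q : Q × X | ¬ (q.2 ∈ cutq gen K B k q.1 ∧ (q.1, q.2) ∈ K k i)} :=
      (hc.inter (hK k i)).compl
    exact (cq (fun x y => ¬ (y ∈ cutq gen K B k x ∧ (x, y) ∈ K k i)) h1).compl
  refine measurable_to_countable' fun i => ?_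
  rcases i with _ | i
  · have h2 : idxq gen K B k ⁻¹' {0} =
        {x : Q | ¬ gen x fun y => ¬ (y ∈ cutq gen K B k x ∧ (x, y) ∈ K k 0)} ∪
        ⋂ i, {x : Q | ¬ gen x fun y => ¬ (y ∈ cutq gen K B k x ∧ (x, y) ∈ K k i)}ᶜ := by
      ext x
      rw [mem_preimage, mem_singleton_iff, idxq, Nat.sInf_eq_zero, mem_union, mem_iInter,
        Set.eq_empty_iff_forall_notMem]
      rfl
    rw [h2]
    exact (hA 0).union (MeasurableSet.iInter fun i => (hA i).compl)
  · have h2 : idxq gen K B k ⁻¹' {i + 1} =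
        {x : Q | ¬ gen x fun y => ¬ (y ∈ cutq gen K B k x ∧ (x, y) ∈ K k (i + 1))} ∩
        ⋂ j, ⋂ (_ : j ≤ i), {x : Q | ¬ gen x fun y =>
          ¬ (y ∈ cutq gen K B k x ∧ (x, y) ∈ K k j)}ᶜ := by
      ext x
      rw [mem_preimage, mem_singleton_iff, idxq, sInf_eq_succq, mem_inter_iff, mem_iInter₂]
      rfl
    rw [h2]
    exact (hA (i + 1)).inter (MeasurableSet.iInter fun j => MeasurableSet.iInter fun _ =>
      (hA j).compl)

private theorem cutq_meas (gen : Q → (X → Prop) → Prop)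
    (cq : ∀ A : Q → X → Prop, MeasurableSet {q : Q × X | A q.1 q.2} →
      MeasurableSet {r : Q | gen r (A r)}) {K : ℕ → ℕ → Set (Q × X)}
    (hK : ∀ k i, MeasurableSet (K k i)) {B : Set (Q × X)} (hB : MeasurableSet B) (k : ℕ) :
    MeasurableSet {p : Q × X | p.2 ∈ cutq gen K B k p.1} := by
  induction k with
  | zero => exact hB
  | succ k ih =>
    have h1 := idxq_meas_of gen cq hK k ih
    have h2 : {p : Q × X | p.2 ∈ cutq gen K B (k + 1) p.1} =
        ⋃ i, {p : Q × X | idxq gen K B k p.1 = i} ∩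
          ({p : Q × X | p.2 ∈ cutq gen K B k p.1} ∩ K k i) := by
      ext p
      rw [mem_setOf_eq, cutq_succ, mem_setOf_eq, mem_iUnion]
      constructor
      · rintro ⟨h3, h4⟩
        exact ⟨_, rfl, h3, h4⟩
      · rintro ⟨i, h3, h4, h5⟩
        obtain rfl : idxq gen K B k p.1 = i := h3
        exact ⟨h4, h5⟩
    rw [h2]
    refine MeasurableSet.iUnion fun i => MeasurableSet.inter ?_ (ih.inter (hK k i))
    exact (h1.comp measurable_fst) (measurableSet_singleton i)

private theorem cutq_gen (gen : Q → (X → Prop) → Prop)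
    (mono : ∀ r (P P' : X → Prop), (∀ y, P y → P' y) → gen r P → gen r P')
    (nat : ∀ r (P : ℕ → X → Prop), (∀ n, gen r (P n)) → gen r fun y => ∀ n, P n y)
    {K : ℕ → ℕ → Set (Q × X)} {B : Set (Q × X)}
    (hc : ∀ k p, p ∈ B → ∃ i, p ∈ K k i) {x : Q} (h : ¬ gen x fun y => (x, y) ∉ B)
    (k : ℕ) : ¬ gen x fun y => y ∉ cutq gen K B k x := by
  induction k with
  | zero => exact h
  | succ k ih =>
    have hne : {i | ¬ gen x fun y => ¬ (y ∈ cutq gen K B k x ∧ (x, y) ∈ K k i)}.Nonempty := by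
      by_contra hemp
      rw [Set.not_nonempty_iff_eq_empty, Set.eq_empty_iff_forall_notMem] at hemp
      apply ih
      have h1 : ∀ i, gen x fun y => ¬ (y ∈ cutq gen K B k x ∧ (x, y) ∈ K k i) := fun i =>
        not_not.1 (hemp i)
      refine mono x _ _ (fun y hy hcut => ?_) (nat x _ h1)
      obtain ⟨i, hi⟩ := hc k (x, y) ((mem_cutq_iff gen K B k x y).1 hcut).1
      exact hy i ⟨hcut, hi⟩
    exact Nat.sInf_mem hne

private theorem ch_abs [StandardBorelSpace Q] [StandardBorelSpace X] (gen : Q → (X → Prop) → Prop)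
    (all : ∀ r, gen r fun _ => True)
    (mono : ∀ r (P P' : X → Prop), (∀ y, P y → P' y) → gen r P → gen r P')
    (nat : ∀ r (P : ℕ → X → Prop), (∀ n, gen r (P n)) → gen r fun y => ∀ n, P n y)
    (cq : ∀ A : Q → X → Prop, MeasurableSet {q : Q × X | A q.1 q.2} →
      MeasurableSet {r : Q | gen r (A r)})
    {B : Set (Q × X)} (hB : MeasurableSet B) (s0 : Q → X) (hs0 : Measurable s0) :
    ∃ s : Q → X, Measurable s ∧ ∀ r, (¬ gen r fun y => (r, y) ∉ B) → (r, s r) ∈ B := by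
  classical
  rcases isEmpty_or_nonempty Q with hQ | hQ
  · exact ⟨s0, hs0, fun r => isEmptyElim r⟩
  haveI : Nonempty X := ⟨s0 (Classical.arbitrary Q)⟩
  obtain ⟨K, hKm, hKc, hKu⟩ := chi_cov hB
  obtain ⟨D, hDdef⟩ : ∃ D : Set Q, D = {r | ¬ gen r fun y => (r, y) ∉ B} := ⟨_, rfl⟩
  have hD : MeasurableSet D := by
    rw [hDdef]
    exact (cq (fun r y => (r, y) ∉ B) hB.compl).compl
  have h : ∀ x ∈ D, ¬ gen x fun y => (x, y) ∉ B := by
    intro x hx
    rw [hDdef] at hx
    exact hx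
  have hex : ∀ x ∈ D, ∃ y, ((x, y) ∈ B ∧ ∀ k, (x, y) ∈ K k (idxq gen K B k x)) ∧
      ∀ y', ((x, y') ∈ B ∧ ∀ k, (x, y') ∈ K k (idxq gen K B k x)) → y' = y := by
    intro x hx
    refine hKu x (fun k => idxq gen K B k x) fun n => ?_
    have hne : ∃ y, y ∈ cutq gen K B (n + 1) x := by
      by_contra hemp
      refine cutq_gen gen mono nat hKc (h x hx) (n + 1) (mono x _ _ (fun y _ hy => ?_) (all x))
      exact hemp ⟨y, hy⟩
    obtain ⟨y, hy⟩ := hne
    have hy' := (mem_cutq_iff gen K B (n + 1) x y).1 hy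
    exact ⟨y, hy'.1, fun k hk => hy'.2 k (Nat.lt_succ_of_le hk)⟩
  choose! g hg hgu using hex
  obtain ⟨Γ, hΓ⟩ : ∃ Γ : Set (Q × X), Γ = {p | p.1 ∈ D ∧ p ∈ B ∧
      ∀ k, p ∈ K k (idxq gen K B k p.1)} := ⟨_, rfl⟩
  have hΓm : MeasurableSet Γ := by
    have hk : ∀ k, MeasurableSet {p : Q × X | p ∈ K k (idxq gen K B k p.1)} := by
      intro k
      have e : {p : Q × X | p ∈ K k (idxq gen K B k p.1)} =
          ⋃ i, ((idxq gen K B k ∘ Prod.fst) ⁻¹' {i} ∩ K k i) := by
        ext p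
        simp only [mem_setOf_eq, mem_iUnion, mem_inter_iff, mem_preimage, Function.comp_apply,
          mem_singleton_iff]
        constructor
        · intro hp
          exact ⟨_, rfl, hp⟩
        · rintro ⟨i, rfl, hp⟩
          exact hp
      rw [e]
      exact MeasurableSet.iUnion fun i =>
        (((idxq_meas_of gen cq hKm k (cutq_meas gen cq hKm hB k)).comp measurable_fst)
          (measurableSet_singleton i)).inter (hKm k i)
    have e : Γ = (Prod.fst ⁻¹' D) ∩ (B ∩ ⋂ k, {p : Q × X | p ∈ K k (idxq gen K B k p.1)}) := by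
      rw [hΓ]
      ext p
      simp only [mem_setOf_eq, mem_inter_iff, mem_iInter, mem_preimage]
    rw [e]
    exact (measurable_fst hD).inter (hB.inter (MeasurableSet.iInter hk))
  have hΓ1 : ∀ x ∈ D, (x, g x) ∈ Γ := by
    intro x hx
    rw [hΓ]
    exact ⟨hx, (hg x hx).1, (hg x hx).2⟩
  have hΓ2 : ∀ p ∈ Γ, p.1 ∈ D ∧ p.2 = g p.1 := by
    intro p hp
    rw [hΓ] at hp
    exact ⟨hp.1, hgu p.1 hp.1 p.2 ⟨hp.2.1, hp.2.2⟩⟩
  have hinj : InjOn Prod.fst Γ := by
    intro p hp q hq hpq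
    have h1 := (hΓ2 p hp).2
    have h2 := (hΓ2 q hq).2
    rw [hpq, ← h2] at h1
    exact Prod.ext hpq h1
  refine ⟨fun x => if x ∈ D then g x else s0 x, ?_, ?_⟩
  · intro A hA
    have e : (fun x => if x ∈ D then g x else s0 x) ⁻¹' A =
        Prod.fst '' (Γ ∩ Prod.snd ⁻¹' A) ∪ (Dᶜ ∩ s0 ⁻¹' A) := by
      ext x
      simp only [mem_preimage, mem_union, mem_image, mem_inter_iff, mem_compl_iff]
      by_cases hx : x ∈ D
      · rw [if_pos hx]
        constructor
        · intro hgx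
          exact Or.inl ⟨(x, g x), ⟨hΓ1 x hx, hgx⟩, rfl⟩
        · rintro (⟨p, ⟨hp, hpA⟩, rfl⟩ | ⟨h1, -⟩)
          · rw [← (hΓ2 p hp).2]
            exact hpA
          · exact absurd hx h1
      · rw [if_neg hx]
        constructor
        · intro hxA
          exact Or.inr ⟨hx, hxA⟩
        · rintro (⟨p, ⟨hp, -⟩, rfl⟩ | ⟨-, h1⟩)
          · exact absurd (hΓ2 p hp).1 hx
          · exact h1
    rw [e]
    exact ((hΓm.inter (measurable_snd hA)).image_of_measurable_injOn measurable_fst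
      (hinj.mono inter_subset_left)).union (hD.compl.inter (hs0 hA))
  · intro x hx
    have hxD : x ∈ D := by
      rw [hDdef]
      exact hx
    show (x, if x ∈ D then g x else s0 x) ∈ B
    rw [if_pos hxD]
    exact (hg x hxD).1

end Abs

theorem ch_pi {X : Type} [MeasurableSpace X] [StandardBorelSpace X] {F : X → X → Prop} (I : PI X F) (hI : Cq I)
    (Q : Type) [MeasurableSpace Q] [StandardBorelSpace Q] (π : Q → X) (hπ : Measurable π)
    (B : Set (Q × X)) (hB : MeasurableSet B) :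
    ∃ s : Q → X, Measurable s ∧ ∀ r, (¬ I.gen (π r) fun y => (r, y) ∉ B) → (r, s r) ∈ B := by
  refine ch_abs (fun r => I.gen (π r)) (fun r => I.all (π r))
    (fun r P P' h => I.mono (π r) P P' fun y _ => h y) (fun r P h => I.nat (π r) P h)
    (fun A hA => hI Q inferInstance inferInstance π hπ A hA) hB π hπ

end Pool.Agent.H56.GJ
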