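import Pool.Agent.H56.GJ.Def
set_option autoImplicit false

/-!
# H56/GJ/Cqi: measurability with parameters

Let `𝒟` be the class of sets `A ⊆ P × X` (measurable) such that for all `n` the set
`{p | gen (π p) (y ∈ H n (π p) → (p, y) ∈ A)}` is measurable. Rectangles `U ×ˢ V`: for `p ∈ U` the condition is
`gen (π p) (y ∈ H n (π p) → y ∈ V)`, for `p ∉ U` it is `gen (π p) (y ∉ H n (π p))`; both are `I.bb` pulled back
by `π`. Complements: `gen (y ∈ H n → (p, y) ∉ A)` iff for all `m` with `¬ gen (y ∉ H m)` and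
`gen (y ∈ H m → y ∈ H n)`: `¬ gen (y ∈ H m → (p, y) ∈ A)` (`I.base` for the section of `A` intersected with
`H n`). Countable intersections: `I.nat`. Then (generateFrom_prod, induction, unions by De Morgan) all measurable
sets. Finally `gen (π p) (A p)` iff there is no `m` with `¬ gen (y ∉ H m)` and `gen (y ∈ H m → ¬ A p y)`.
-/

namespace Pool.Agent.H56.GJ

open Set Pool.Agent.H93.EO Pool.Agent.H56.MG Pool.Agent.H56.GI

section

variable {X : Type} [MeasurableSpace X] {F : X → X → Prop}

private theorem conj (I : PI X F) {x : X} {P Q : X → Prop} (h1 : I.gen x P) (h2 : I.gen x Q) :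
    I.gen x fun y => P y ∧ Q y := by
  have h3 := I.nat x (fun n y => if n = 0 then P y else Q y) fun n => by
    by_cases h : n = 0
    · refine I.mono x P _ (fun y _ hy => ?_) h1
      rw [if_pos h]
      exact hy
    · refine I.mono x Q _ (fun y _ hy => ?_) h2
      rw [if_neg h]
      exact hy
  refine I.mono x _ _ (fun y _ hy => ?_) h3
  have h4 := hy 0
  have h5 := hy 1
  rw [if_pos rfl] at h4
  rw [if_neg one_ne_zero] at h5
  exact ⟨h4, h5⟩

private theorem mn (I : PI X F) {x : X} {P Q : X → Prop} (h : ∀ y, P y → Q y) (h1 : I.gen x P) : I.gen x Q :=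
  I.mono x P Q (fun y _ hy => h y hy) h1

variable {P : Type} [MeasurableSpace P] {π : P → X}

/-- the class -/
private def DD (I : PI X F) (π : P → X) (A : Set (P × X)) : Prop :=
  ∀ n, MeasurableSet {p : P | I.gen (π p) fun y => y ∈ I.H n (π p) → (p, y) ∈ A}

private theorem m1 (I : PI X F) (hπ : Measurable π) (n : ℕ) {V : Set X} (hV : MeasurableSet V) :
    MeasurableSet {p : P | I.gen (π p) fun y => y ∈ I.H n (π p) → y ∈ V} := by
  have h1 : MeasurableSet {q : X × X | q.2 ∈ I.H n q.1 → q.2 ∈ V} := by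
    have h2 : {q : X × X | q.2 ∈ I.H n q.1 → q.2 ∈ V} = {q : X × X | q.2 ∈ I.H n q.1}ᶜ ∪ {q | q.2 ∈ V} := by
      ext q
      show (q.2 ∈ I.H n q.1 → q.2 ∈ V) ↔ (¬ q.2 ∈ I.H n q.1) ∨ q.2 ∈ V
      tauto
    rw [h2]
    exact (I.mH n).compl.union (measurable_snd hV)
  exact hπ (I.bb _ h1)

private theorem m0 (I : PI X F) (hπ : Measurable π) (n : ℕ) :
    MeasurableSet {p : P | I.gen (π p) fun y => y ∉ I.H n (π p)} :=
  hπ (I.bb _ (I.mH n).compl)

private theorem m2 (I : PI X F) (hπ : Measurable π) (m n : ℕ) :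
    MeasurableSet {p : P | I.gen (π p) fun y => y ∈ I.H m (π p) → y ∈ I.H n (π p)} := by
  have h1 : MeasurableSet {q : X × X | q.2 ∈ I.H m q.1 → q.2 ∈ I.H n q.1} := by
    have h2 : {q : X × X | q.2 ∈ I.H m q.1 → q.2 ∈ I.H n q.1} =
        {q : X × X | q.2 ∈ I.H m q.1}ᶜ ∪ {q : X × X | q.2 ∈ I.H n q.1} := by
      ext q
      show (q.2 ∈ I.H m q.1 → q.2 ∈ I.H n q.1) ↔ (¬ q.2 ∈ I.H m q.1) ∨ q.2 ∈ I.H n q.1
      tauto
    rw [h2]
    exact (I.mH m).compl.union (I.mH n)
  exact hπ (I.bb _ h1)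

private theorem dRect (I : PI X F) (hπ : Measurable π) {U : Set P} {V : Set X} (hU : MeasurableSet U)
    (hV : MeasurableSet V) : DD I π (U ×ˢ V) := by
  intro n
  have h1 : {p : P | I.gen (π p) fun y => y ∈ I.H n (π p) → (p, y) ∈ U ×ˢ V} =
      (U ∩ {p : P | I.gen (π p) fun y => y ∈ I.H n (π p) → y ∈ V}) ∪
        (Uᶜ ∩ {p : P | I.gen (π p) fun y => y ∉ I.H n (π p)}) := by
    ext p
    by_cases hp : p ∈ U
    · constructor
      · intro h
        exact Or.inl ⟨hp, mn I (fun y hy hh => (hy hh).2) h⟩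
      · rintro (⟨-, h⟩ | ⟨h, -⟩)
        · exact mn I (fun y hy hh => ⟨hp, hy hh⟩) h
        · exact absurd hp h
    · constructor
      · intro h
        exact Or.inr ⟨hp, mn I (fun y hy hh => hp (hy hh).1) h⟩
      · rintro (⟨h, -⟩ | ⟨-, h⟩)
        · exact absurd h hp
        · exact mn I (fun y hy hh => absurd hh hy) h
  rw [h1]
  exact (hU.inter (m1 I hπ n hV)).union (hU.compl.inter (m0 I hπ n))

private theorem dCompl (I : PI X F) (hπ : Measurable π) {A : Set (P × X)} (hA : MeasurableSet A) (h : DD I π A) :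
    DD I π Aᶜ := by
  intro n
  have h1 : {p : P | I.gen (π p) fun y => y ∈ I.H n (π p) → (p, y) ∈ Aᶜ} =
      ⋂ m : ℕ, ({p : P | I.gen (π p) fun y => y ∉ I.H m (π p)} ∪
        {p : P | I.gen (π p) fun y => y ∈ I.H m (π p) → y ∈ I.H n (π p)}ᶜ ∪
        {p : P | I.gen (π p) fun y => y ∈ I.H m (π p) → (p, y) ∈ A}ᶜ) := by
    ext p
    rw [mem_iInter]
    constructor
    · intro h2 m
      by_cases h3 : I.gen (π p) fun y => y ∈ I.H m (π p) → y ∈ I.H n (π p)
      · by_cases h4 : I.gen (π p) fun y => y ∈ I.H m (π p) → (p, y) ∈ A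
        · refine Or.inl (Or.inl ?_)
          refine mn I (fun y hy hm => ?_) (conj I h2 (conj I h3 h4))
          exact hy.1 (hy.2.1 hm) (hy.2.2 hm)
        · exact Or.inr h4
      · exact Or.inl (Or.inr h3)
    · intro h2
      by_contra hcon
      have hB : MeasurableSet {y : X | y ∈ I.H n (π p) ∧ (p, y) ∈ A} :=
        ((measurable_const.prodMk measurable_id : Measurable fun y : X => (π p, y)) (I.mH n)).inter
          ((measurable_const.prodMk measurable_id : Measurable fun y : X => (p, y)) hA)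
      obtain ⟨m, h3, h4⟩ := I.base (π p) {y : X | y ∈ I.H n (π p) ∧ (p, y) ∈ A} hB
        (fun h5 => hcon (mn I (fun y hy hn hyA => hy ⟨hn, hyA⟩) h5))
      rcases h2 m with (h5 | h5) | h5
      · exact h3 h5
      · exact h5 (mn I (fun y hy hm => (hy hm).1) h4)
      · exact h5 (mn I (fun y hy hm => (hy hm).2) h4)
  rw [h1]
  exact MeasurableSet.iInter fun m => ((m0 I hπ m).union (m2 I hπ m n).compl).union (h m).compl

private theorem dInter (I : PI X F) {A : ℕ → Set (P × X)} (h : ∀ i, DD I π (A i)) : DD I π (⋂ i, A i) := by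
  intro n
  have h1 : {p : P | I.gen (π p) fun y => y ∈ I.H n (π p) → (p, y) ∈ ⋂ i, A i} =
      ⋂ i : ℕ, {p : P | I.gen (π p) fun y => y ∈ I.H n (π p) → (p, y) ∈ A i} := by
    ext p
    rw [mem_iInter]
    constructor
    · intro h2 i
      exact mn I (fun y hy hn => mem_iInter.1 (hy hn) i) h2
    · intro h2
      refine mn I (fun y hy hn => mem_iInter.2 fun i => hy i hn)
        (I.nat (π p) (fun i y => y ∈ I.H n (π p) → (p, y) ∈ A i) h2)
  rw [h1]
  exact MeasurableSet.iInter fun i => h i n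

private theorem dAll (I : PI X F) (hπ : Measurable π) {A : Set (P × X)} (hA : MeasurableSet A) : DD I π A := by
  have key : ∀ B : Set (P × X), @MeasurableSet _ (MeasurableSpace.generateFrom
      (image2 (fun (s : Set P) (t : Set X) => s ×ˢ t) {s | MeasurableSet s} {t | MeasurableSet t})) B →
      MeasurableSet B ∧ DD I π B := by
    intro B hB
    induction B, hB using MeasurableSpace.generateFrom_induction with
    | hC t ht =>
      obtain ⟨U, hU, V, hV, rfl⟩ := ht
      exact ⟨MeasurableSet.prod hU hV, dRect I hπ hU hV⟩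
    | empty =>
      refine ⟨MeasurableSet.empty, ?_⟩
      have h1 := dRect I hπ (MeasurableSet.empty : MeasurableSet (∅ : Set P)) (MeasurableSet.empty : MeasurableSet (∅ : Set X))
      rwa [empty_prod] at h1
    | compl t _ h => exact ⟨h.1.compl, dCompl I hπ h.1 h.2⟩
    | iUnion s _ h =>
      refine ⟨MeasurableSet.iUnion fun i => (h i).1, ?_⟩
      have h1 : (⋃ i, s i) = (⋂ i, (s i)ᶜ)ᶜ := by
        rw [compl_iInter]
        simp only [compl_compl]
      rw [h1]
      exact dCompl I hπ (MeasurableSet.iInter fun i => (h i).1.compl) (dInter I fun i => dCompl I hπ (h i).1 (h i).2)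
  refine (key A ?_).2
  rw [generateFrom_prod]
  exact hA

end

theorem cq_pi {X : Type} [MeasurableSpace X] [StandardBorelSpace X] {F : X → X → Prop} (I : PI X F) : Cq I := by
  intro P _ _ π hπ A hA
  have hD := dAll I hπ hA.compl
  have h1 : {p : P | I.gen (π p) (A p)} =
      ⋂ m : ℕ, ({p : P | I.gen (π p) fun y => y ∉ I.H m (π p)} ∪
        {p : P | I.gen (π p) fun y => y ∈ I.H m (π p) → (p, y) ∈ {q : P × X | A q.1 q.2}ᶜ}ᶜ) := by
    ext p
    rw [mem_iInter]
    constructor
    · intro h2 m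
      by_cases h4 : I.gen (π p) fun y => y ∈ I.H m (π p) → (p, y) ∈ {q : P × X | A q.1 q.2}ᶜ
      · refine Or.inl ?_
        refine mn I (fun y hy hm => ?_) (conj I h2 h4)
        exact hy.2 hm hy.1
      · exact Or.inr h4
    · intro h2
      by_contra hcon
      have hB : MeasurableSet {y : X | ¬ A p y} :=
        ((measurable_const.prodMk measurable_id : Measurable fun y : X => (p, y)) hA).compl
      obtain ⟨m, h3, h4⟩ := I.base (π p) {y : X | ¬ A p y} hB
        (fun h5 => hcon (mn I (fun y hy => not_not.1 hy) h5))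
      rcases h2 m with h5 | h5
      · exact h3 h5
      · exact h5 (mn I (fun y hy hm => hy hm) h4)
  rw [h1]
  exact MeasurableSet.iInter fun m => (m0 I hπ m).union (hD m).compl

end Pool.Agent.H56.GJ
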