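import Pool.Agent.H56.GI.Def
import Pool.Agent.H56.GI.Sel2
set_option autoImplicit false

/-!
# H56/GJ/Def: ideals with countable bases (definitions)
-/

namespace Pool.Agent.H56.GJ

open Set Pool.Agent.H93.EO Pool.Agent.H56.MG Pool.Agent.H56.GI

/-- for every point `x` a quantifier `gen x` (for all points of the class of `x` outside a small set), and
sets `H n x` such that every large measurable set contains a large `H n x` up to a small set -/
structure PI (X : Type) [MeasurableSpace X] (F : X → X → Prop) where
  /-- the base -/
  H : ℕ → X → Set X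
  /-- for generic points of the class of `x` -/
  gen : X → (X → Prop) → Prop
  all : ∀ x, gen x fun _ => True
  mono : ∀ x (P Q : X → Prop), (∀ y, F x y → P y → Q y) → gen x P → gen x Q
  nat : ∀ x (P : ℕ → X → Prop), (∀ n, gen x (P n)) → gen x fun y => ∀ n, P n y
  proper : ∀ x, ¬ gen x fun _ => False
  base : ∀ x (A : Set X), MeasurableSet A → (¬ gen x fun y => y ∉ A) →
    ∃ n, (¬ gen x fun y => y ∉ H n x) ∧ gen x fun z => z ∈ H n x → z ∈ A
  mH : ∀ n, MeasurableSet {p : X × X | p.2 ∈ H n p.1}
  bb : ∀ A : Set (X × X), MeasurableSet A → MeasurableSet {x : X | gen x fun y => (x, y) ∈ A}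

/-- the quantifier preserves measurability, with parameters -/
def Cq {X : Type} [MeasurableSpace X] {F : X → X → Prop} (I : PI X F) : Prop :=
  ∀ (P : Type) (_ : MeasurableSpace P) (_ : StandardBorelSpace P) (π : P → X), Measurable π →
    ∀ A : P → X → Prop, MeasurableSet {q : P × X | A q.1 q.2} →
      MeasurableSet {p : P | I.gen (π p) (A p)}

end Pool.Agent.H56.GJ
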