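import Pool.Agent.H56.GJ.Def
set_option autoImplicit false

/-!
# H56/GJ/Swi: Kuratowski-Ulam for ideals with countable bases

The proof of H56/GI/Ku2.lean (helper49, helper13) with large basic sets instead of nonempty ones and
inclusion up to small sets. (helper74)
-/

namespace Pool.Agent.H56.GJ

open Set Pool.Agent.H93.EO Pool.Agent.H56.MG Pool.Agent.H56.GI

namespace SwP

section one

variable {X : Type} [MeasurableSpace X] {F : X → X → Prop} (S : PI X F) (x : X)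

/-- the basic set is large -/
def Big (n : ℕ) : Prop := ¬ S.gen x fun z => z ∉ S.H n x

/-- inclusion up to a small set -/
def Sub (k n : ℕ) : Prop := S.gen x fun z => z ∈ S.H k x → z ∈ S.H n x

theorem all {P : X → Prop} (h : ∀ y, F x y → P y) : S.gen x P :=
  S.mono x _ _ (fun y hy _ => h y hy) (S.all x)

theorem two {P Q R : X → Prop} (hP : S.gen x P) (hQ : S.gen x Q)
    (h : ∀ y, F x y → P y → Q y → R y) : S.gen x R := by
  have h1 := S.nat x (fun n y => if n = 0 then P y else Q y) (by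
    intro n
    by_cases hn : n = 0
    · simpa [hn] using hP
    · simpa [hn] using hQ)
  refine S.mono x _ _ (fun y hy h2 => ?_) h1
  have a := h2 0
  have b := h2 1
  simp only [if_true, one_ne_zero, if_false] at a b
  exact h y hy a b

theorem rfl' (n : ℕ) : Sub S x n n := all S x fun _ _ h => h

theorem trans' {a j n : ℕ} (h : Sub S x a j) (h' : Sub S x j n) : Sub S x a n :=
  two S x h h' fun _ _ h1 h2 h3 => h2 (h1 h3)

theorem mH' (n : ℕ) : MeasurableSet {z : X | z ∈ S.H n x} :=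
  (measurable_prodMk_left (x := x)) (S.mH n)

theorem big_inter {a j : ℕ} (ha : Big S x a) (h : Sub S x a j) :
    ¬ S.gen x fun z => ¬ (z ∈ S.H j x ∧ z ∈ S.H a x) := by
  intro h1
  apply ha
  exact two S x h h1 fun z _ h2 h3 h4 => h3 ⟨h2 h4, h4⟩

theorem pos {A : Set X} (hA : MeasurableSet A) (n : ℕ)
    (h : ¬ S.gen x fun y => y ∈ S.H n x → y ∉ A) :
    ∃ k, Big S x k ∧ Sub S x k n ∧ S.gen x fun z => z ∈ S.H k x → z ∈ A := by
  obtain ⟨k, hk, hg⟩ := S.base x ({z : X | z ∈ S.H n x} ∩ A) ((mH' S x n).inter hA) (fun h1 => h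
    (S.mono x _ _ (fun z _ h2 h3 h4 => h2 ⟨h3, h4⟩) h1))
  exact ⟨k, hk, S.mono x _ _ (fun z _ h1 h2 => (h1 h2).1) hg,
    S.mono x _ _ (fun z _ h1 h2 => (h1 h2).2) hg⟩

theorem dich {A : Set X} (hA : MeasurableSet A) {n : ℕ} (hn : Big S x n) :
    ∃ k, Big S x k ∧ Sub S x k n ∧
      ((S.gen x fun z => z ∈ S.H k x → z ∈ A) ∨ S.gen x fun z => z ∈ S.H k x → z ∉ A) := by
  by_cases h : S.gen x fun y => y ∈ S.H n x → y ∉ A
  · exact ⟨n, hn, rfl' S x n, Or.inr h⟩
  · obtain ⟨k, h1, h2, h3⟩ := pos S x hA n h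
    exact ⟨k, h1, h2, Or.inl h3⟩

/-- open dense in a basic set -/
theorem od (n : ℕ) (N : ℕ → Prop)
    (h : ∀ j, Big S x j → Sub S x j n →
      ∃ a, N a ∧ ¬ S.gen x fun z => ¬ (z ∈ S.H j x ∧ z ∈ S.H a x)) :
    S.gen x fun z => z ∈ S.H n x → ∃ a, N a ∧ z ∈ S.H a x := by
  by_contra hc
  have hA : MeasurableSet ({z : X | z ∈ S.H n x} ∩ ⋂ a : {a : ℕ // N a}, {z : X | z ∈ S.H a.1 x}ᶜ) :=
    (mH' S x n).inter (MeasurableSet.iInter fun a => (mH' S x a.1).compl)
  obtain ⟨j, hj, hg⟩ := S.base x _ hA (fun h1 => hc (S.mono x _ _ (fun z _ h2 h3 => by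
    by_contra h4
    refine h2 ⟨h3, ?_⟩
    rw [mem_iInter]
    rintro ⟨a, ha⟩ h5
    exact h4 ⟨a, ha, h5⟩) h1))
  obtain ⟨a, ha, h1⟩ := h j hj (S.mono x _ _ (fun z _ h2 h3 => (h2 h3).1) hg)
  apply h1
  refine S.mono x _ _ (fun z _ h2 h3 => ?_) hg
  have h4 := (h2 h3.1).2
  rw [mem_iInter] at h4
  exact h4 ⟨a, ha⟩ h3.2

end one

variable {X Y : Type} [MeasurableSpace X] [MeasurableSpace Y] {F : X → X → Prop} {E : Y → Y → Prop}
  (S : PI X F) (x : X) (T : PI Y E) (y : Y)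

/-- generic in this order -/
def AA (n m : ℕ) (R : X → Y → Prop) : Prop :=
  S.gen x fun a => a ∈ S.H n x → T.gen y fun b => b ∈ T.H m y → R a b

theorem AA_mono {n m : ℕ} {R R' : X → Y → Prop} (h : ∀ a b, R a b → R' a b) (hA : AA S x T y n m R) :
    AA S x T y n m R' :=
  S.mono x _ _ (fun _ _ h1 hn => T.mono y _ _ (fun _ _ h2 hm => h _ _ (h2 hm)) (h1 hn)) hA

/-- a dense family of rectangles -/
theorem dense_AA (n m : ℕ) (Q : X → Y → Prop) (V : ℕ → ℕ → Prop)
    (hV : ∀ a b, V a b → AA S x T y a b Q)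
    (hd : ∀ j k, Big S x j → Sub S x j n → Big T y k →
      Sub T y k m → ∃ a b, V a b ∧ Big S x a ∧ Sub S x a j ∧
        Big T y b ∧ Sub T y b k) : AA S x T y n m Q := by
  have g1 : S.gen x fun u => ∀ k, Big T y k → Sub T y k m → u ∈ S.H n x →
      ∃ a, (∃ b, V a b ∧ Big T y b ∧ Sub T y b k) ∧ u ∈ S.H a x := by
    refine S.nat x _ fun k => ?_
    by_cases hk : Big T y k ∧ Sub T y k m
    · refine S.mono x _ _ (fun u _ h1 _ _ h2 => h1 h2)
        (od S x n (fun a => ∃ b, V a b ∧ Big T y b ∧ Sub T y b k) ?_)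
      intro j hj hjs
      obtain ⟨a, b, hab, ha, hajs, hb, hbk⟩ := hd j k hj hjs hk.1 hk.2
      exact ⟨a, ⟨b, hab, hb, hbk⟩, big_inter S x ha hajs⟩
    · exact all S x fun u _ h1 h2 => absurd ⟨h1, h2⟩ hk
  have g2 : S.gen x fun u => ∀ a b, V a b → u ∈ S.H a x →
      T.gen y fun w => w ∈ T.H b y → Q u w := by
    refine S.nat x _ fun a => S.nat x _ fun b => ?_
    by_cases hab : V a b
    · exact S.mono x _ _ (fun u _ h1 _ h2 => h1 h2) (hV a b hab)
    · exact all S x fun u _ h1 => absurd h1 hab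
  refine two S x g1 g2 ?_
  intro u _ h1 h2 hn
  have g3 := od T y m (fun b => ∃ a, V a b ∧ u ∈ S.H a x) (by
    intro j hj hjs
    obtain ⟨a, ⟨b, hab, hb, hbj⟩, hya⟩ := h1 j hj hjs hn
    exact ⟨b, ⟨a, hab, hya⟩, big_inter T y hb hbj⟩)
  have g4 : T.gen y fun w => ∀ b, (∃ a, V a b ∧ u ∈ S.H a x) → w ∈ T.H b y → Q u w := by
    refine T.nat y _ fun b => ?_
    by_cases hb : ∃ a, V a b ∧ u ∈ S.H a x
    · obtain ⟨a, hab, hya⟩ := hb
      exact T.mono y _ _ (fun w _ h3 _ h4 => h3 h4) (h2 a b hab hya)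
    · exact all T y fun w _ h3 => absurd h3 hb
  refine two T y g3 g4 ?_
  intro w _ h3 h4 hm
  obtain ⟨b, hb, hwb⟩ := h3 hm
  exact h4 b hb hwb

/-- both orders -/
def CC (n m : ℕ) (R : X → Y → Prop) : Prop := AA S x T y n m R ∧ AA T y S x m n fun w u => R u w

theorem CC_mono {n m : ℕ} {R R' : X → Y → Prop} (h : ∀ a b, R a b → R' a b) (hA : CC S x T y n m R) :
    CC S x T y n m R' :=
  ⟨AA_mono S x T y h hA.1, AA_mono T y S x (fun w u => h u w) hA.2⟩

/-- every rectangle contains a rectangle on which `R` or `¬ R` holds generically -/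
def Gd (R : X → Y → Prop) : Prop := ∀ n m, Big S x n → Big T y m →
  ∃ a b, Big S x a ∧ Sub S x a n ∧ Big T y b ∧ Sub T y b m ∧
    (CC S x T y a b R ∨ CC S x T y a b fun u w => ¬ R u w)

theorem Gd_rect {A : Set X} {B : Set Y} (hA : MeasurableSet A) (hB : MeasurableSet B) :
    Gd S x T y fun u w => u ∈ A ∧ w ∈ B := by
  intro n m hn hm
  obtain ⟨a, ha, han, hA'⟩ := dich S x hA hn
  obtain ⟨b, hb, hbm, hB'⟩ := dich T y hB hm
  refine ⟨a, b, ha, han, hb, hbm, ?_⟩
  rcases hA' with hA' | hA'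
  · rcases hB' with hB' | hB'
    · left
      refine ⟨S.mono x _ _ (fun u _ h1 h2 => T.mono y _ _ (fun w _ h3 h4 => ⟨h1 h2, h3 h4⟩) hB') hA',
        T.mono y _ _ (fun u _ h1 h2 => S.mono x _ _ (fun w _ h3 h4 => ⟨h3 h4, h1 h2⟩) hA') hB'⟩
    · right
      refine ⟨all S x fun u _ _ => T.mono y _ _ (fun w _ h3 h4 h5 => h3 h4 h5.2) hB',
        T.mono y _ _ (fun u _ h1 h2 => all S x fun w _ _ h5 => h1 h2 h5.2) hB'⟩
  · right
    refine ⟨S.mono x _ _ (fun u _ h1 h2 => all T y fun w _ _ h5 => h1 h2 h5.1) hA',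
      all T y fun u _ _ => S.mono x _ _ (fun w _ h3 h4 h5 => h3 h4 h5.1) hA'⟩

theorem Gd_compl {R : X → Y → Prop} (h : Gd S x T y R) : Gd S x T y fun u w => ¬ R u w := by
  intro n m hn hm
  obtain ⟨a, b, ha, han, hb, hbm, h1⟩ := h n m hn hm
  refine ⟨a, b, ha, han, hb, hbm, ?_⟩
  rcases h1 with h1 | h1
  · exact Or.inr (CC_mono S x T y (fun u w h2 h3 => h3 h2) h1)
  · exact Or.inl h1

theorem Gd_union {R : ℕ → X → Y → Prop} (h : ∀ i, Gd S x T y (R i)) :
    Gd S x T y fun u w => ∃ i, R i u w := by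
  intro n m hn hm
  by_cases hc : ∃ a b, (Big S x a ∧ Sub S x a n ∧ Big T y b ∧
      Sub T y b m) ∧ ∃ i, CC S x T y a b (R i)
  · obtain ⟨a, b, ⟨ha, han, hb, hbm⟩, i, hi⟩ := hc
    exact ⟨a, b, ha, han, hb, hbm, Or.inl (CC_mono S x T y (fun u w h1 => ⟨i, h1⟩) hi)⟩
  · refine ⟨n, m, hn, rfl' S x n, hm, rfl' T y m, Or.inr ?_⟩
    have key : ∀ i, CC S x T y n m fun u w => ¬ R i u w := by
      intro i
      have hd : ∀ j k, Big S x j → Sub S x j n → Big T y k →
          Sub T y k m → ∃ a b, (CC S x T y a b fun u w => ¬ R i u w) ∧ Big S x a ∧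
            Sub S x a j ∧ Big T y b ∧ Sub T y b k := by
        intro j k hj hjn hk hkm
        obtain ⟨a, b, ha, haj, hb, hbk, h1⟩ := h i j k hj hk
        rcases h1 with h1 | h1
        · exact absurd ⟨a, b, ⟨ha, trans' S x haj hjn, hb, trans' T y hbk hkm⟩, i, h1⟩ hc
        · exact ⟨a, b, h1, ha, haj, hb, hbk⟩
      refine ⟨dense_AA S x T y n m _ (fun a b => CC S x T y a b fun u w => ¬ R i u w)
        (fun a b h1 => h1.1) hd, dense_AA T y S x m n _ (fun b a => CC S x T y a b fun u w => ¬ R i u w)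
        (fun b a h1 => h1.2) ?_⟩
      intro k j hk hkm hj hjn
      obtain ⟨a, b, h1, ha, haj, hb, hbk⟩ := hd j k hj hjn hk hkm
      exact ⟨b, a, h1, hb, hbk, ha, haj⟩
    constructor
    · refine S.mono x _ _ (fun u _ h1 h2 => ?_) (S.nat x _ fun i => (key i).1)
      refine T.mono y _ _ (fun w _ h3 h4 => ?_) (T.nat y _ fun i => h1 i h2)
      rintro ⟨i, hi⟩
      exact h3 i h4 hi
    · refine T.mono y _ _ (fun u _ h1 h2 => ?_) (T.nat y _ fun i => (key i).2)
      refine S.mono x _ _ (fun w _ h3 h4 => ?_) (S.nat x _ fun i => h1 i h2)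
      rintro ⟨i, hi⟩
      exact h3 i h4 hi

theorem Gd_all (s : Set (X × Y)) (hs : MeasurableSet s) : Gd S x T y fun u w => (u, w) ∈ s := by
  rw [← generateFrom_prod] at hs
  induction s, hs using MeasurableSpace.generateFrom_induction with
  | hC t ht _ =>
    obtain ⟨A, hA, B, hB, rfl⟩ := ht
    exact Gd_rect S x T y hA hB
  | empty =>
    intro n m hn hm
    refine ⟨n, m, hn, rfl' S x n, hm, rfl' T y m, Or.inr ⟨?_, ?_⟩⟩
    · exact all S x fun u _ _ => all T y fun w _ _ h => h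
    · exact all T y fun u _ _ => all S x fun w _ _ h => h
  | compl t _ ih => exact Gd_compl S x T y ih
  | iUnion f _ ih =>
    have h := Gd_union S x T y ih
    simpa only [mem_iUnion] using h

end SwP

open SwP

theorem sw_pi {X Y : Type} [MeasurableSpace X] [StandardBorelSpace X] [MeasurableSpace Y]
    [StandardBorelSpace Y] {F : X → X → Prop} {E : Y → Y → Prop} (I : PI X F) (J : PI Y E) (hI : Cq I)
    (hJ : Cq J) (x : X) (y : Y) (R : X → Y → Prop) (hR : MeasurableSet {p : X × Y | R p.1 p.2})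
    (h : I.gen x fun a => J.gen y fun b => R a b) : J.gen y fun b => I.gen x fun a => R a b := by
  have _ := hJ
  by_contra hcon
  have hG : Gd I x J y R := Gd_all I x J y _ hR
  have hR' : MeasurableSet {p : Y × X | R p.2 p.1} := measurable_swap hR
  have hmH : ∀ n, MeasurableSet {u : X | u ∈ I.H n x} := fun n => mH' I x n
  have hD : MeasurableSet {w : Y | ¬ I.gen x fun u => R u w} :=
    (hI Y inferInstance inferInstance (fun _ => x) measurable_const (fun w u => R u w) hR').compl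
  obtain ⟨m, hm, hm'⟩ := J.base y _ hD (fun hh => hcon (J.mono y _ _ (fun w _ h1 => by
    by_contra h2
    exact h1 h2) hh))
  -- one basic set for nonmeager many `w`
  have hDn : ∀ n, MeasurableSet {w : Y | Big I x n ∧
      I.gen x fun u => u ∈ I.H n x → ¬ R u w} := by
    intro n
    refine MeasurableSet.inter (MeasurableSet.const _) ?_
    refine hI Y inferInstance inferInstance (fun _ => x) measurable_const
      (fun w u => u ∈ I.H n x → ¬ R u w) ?_
    have e : {q : Y × X | q.2 ∈ I.H n x → ¬ R q.2 q.1} =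
        (Prod.snd ⁻¹' {u : X | u ∈ I.H n x})ᶜ ∪ {q : Y × X | R q.2 q.1}ᶜ := by
      ext q
      simp only [mem_setOf_eq, mem_union, mem_compl_iff, mem_preimage]
      tauto
    rw [e]
    exact (measurable_snd (hmH n)).compl.union hR'.compl
  have hex : J.gen y fun w => w ∈ J.H m y → ∃ n, Big I x n ∧
      I.gen x fun u => u ∈ I.H n x → ¬ R u w := by
    refine J.mono y _ _ (fun w _ h1 h2 => ?_) hm'
    have h3 : ¬ I.gen x fun u => R u w := h1 h2
    have hm2 : MeasurableSet {u : X | ¬ R u w} :=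
      ((measurable_prodMk_left (x := w)) hR').compl
    obtain ⟨k, hk, hk'⟩ := I.base x _ hm2 (fun hh => h3 (I.mono x _ _ (fun u _ h4 => by
      by_contra h5
      exact h4 h5) hh))
    exact ⟨k, hk, hk'⟩
  obtain ⟨n, hn⟩ : ∃ n, ¬ J.gen y fun w => w ∈ J.H m y → w ∉ {w : Y | Big I x n ∧
      I.gen x fun u => u ∈ I.H n x → ¬ R u w} := by
    by_contra hc
    have hc' : ∀ n, J.gen y fun w => w ∈ J.H m y → w ∉ {w : Y | Big I x n ∧
        I.gen x fun u => u ∈ I.H n x → ¬ R u w} := fun n => by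
      by_contra h1
      exact hc ⟨n, h1⟩
    refine hm (two J y (J.nat y _ hc') hex ?_)
    intro w _ h1 h2 h3
    obtain ⟨n, hn⟩ := h2 h3
    exact h1 n h3 hn
  obtain ⟨m', hm1, hm2, hm3⟩ := pos J y (hDn n) m hn
  have hnn : Big I x n := by
    by_contra hc
    refine hn (all J y fun w _ _ h1 => hc h1.1)
  obtain ⟨a, b, hna, han, hnb, hbm, h1⟩ := hG n m' hnn hm1
  rcases h1 with h1 | h1
  · apply hnb
    refine two J y h1.2 (two J y hm3 hbm fun w _ q1 q2 => (⟨q1, q2⟩ :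
      (w ∈ J.H m' y → w ∈ {w : Y | Big I x n ∧ I.gen x fun u => u ∈ I.H n x → ¬ R u w}) ∧
      (w ∈ J.H b y → w ∈ J.H m' y))) ?_
    intro w _ h2 h3 h4
    have h5 := h2 h4
    have h6 := (h3.1 (h3.2 h4)).2
    apply hna
    refine two I x h5 (two I x h6 han fun u _ q1 q2 => (⟨q1, q2⟩ :
      (u ∈ I.H n x → ¬ R u w) ∧ (u ∈ I.H a x → u ∈ I.H n x))) ?_
    intro u _ h7 h8 h9
    exact h8.1 (h8.2 h9) (h7 h9)
  · apply hna
    refine two I x h1.1 h ?_
    intro u _ h2 h3 h4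
    apply hnb
    refine two J y (h2 h4) h3 ?_
    intro w _ h7 h8 h9
    exact h7 h9 h8

end Pool.Agent.H56.GJ
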