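import Pool.Agent.H56.GJ.Cqi
import Pool.Agent.H56.GJ.Chi
import Pool.Agent.H56.GJ.Swi
set_option autoImplicit false

/-!
# H56/GJ/Pgi: from `PI` to `PG0`, and back

`exists_pg0i`: `H n x = {y | F x y ∧ y ∈ I.H n x}` (measurable by `hF`), `gen = I.gen`; `bp`: the measurable set
`A \ ⋃ {H m x | gen x (H m x → A)}` is small: otherwise `I.base` gives a large `H n x` almost contained
in it, hence in `A`, so disjoint from it up to a small set. `cq = cq_pi`, `sel` from `ch_pi` (`Q = X`, `π = id`).
`exists_pi`: a `PG0` is a `PI` (`base` from `bp`: if every `H n x` with `gen (H n x → A)` is small then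
`gen (y ∉ A)` by `nat`).
-/

namespace Pool.Agent.H56.GJ

open Set Pool.Agent.H93.EO Pool.Agent.H56.MG Pool.Agent.H56.GI

theorem exists_pg0i {X : Type} [MeasurableSpace X] [StandardBorelSpace X] {F : X → X → Prop}
    (hF : MeasurableSet {p : X × X | F p.1 p.2}) (I : PI X F) : ∃ G : PG0 X F, G.gen = I.gen := by
  classical
  have hcq := cq_pi I
  refine ⟨{
    H := fun n x => {y | F x y ∧ y ∈ I.H n x}
    gen := I.gen
    sub := fun n x y h => h.1
    mono := I.mono
    nat := I.nat
    proper := I.proper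
    bp := ?_
    mH := ?_
    cq := fun P i1 i2 π hπ A hA => hcq P i1 i2 π hπ A hA
    sel := ?_ }, rfl⟩
  · intro x A hA
    have hHm : ∀ n, MeasurableSet (I.H n x) := fun n =>
      (show Measurable fun y : X => (x, y) from measurable_prodMk_left) (I.mH n)
    obtain ⟨A', hA'⟩ : ∃ A' : Set X, A' = A \ ⋃ n : {n : ℕ // I.gen x fun z => z ∈ I.H n x → z ∈ A}, I.H n.1 x :=
      ⟨_, rfl⟩
    have hA'm : MeasurableSet A' := by
      rw [hA']
      exact hA.diff (MeasurableSet.iUnion fun n => hHm n.1)
    have h1 : I.gen x fun y => y ∉ A' := by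
      by_contra hcon
      obtain ⟨n, hn1, hn2⟩ := I.base x A' hA'm hcon
      have h2 : I.gen x fun z => z ∈ I.H n x → z ∈ A := by
        refine I.mono x _ _ (fun y _ h hy => ?_) hn2
        have h3 := h hy
        rw [hA'] at h3
        exact h3.1
      apply hn1
      refine I.mono x _ _ (fun y _ h hy => ?_) hn2
      have h3 := h hy
      rw [hA'] at h3
      exact h3.2 (mem_iUnion.2 ⟨⟨n, h2⟩, hy⟩)
    refine I.mono x _ _ (fun y hxy h hyA => ?_) h1
    have h2 : y ∈ ⋃ n : {n : ℕ // I.gen x fun z => z ∈ I.H n x → z ∈ A}, I.H n.1 x := by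
      by_contra hcon
      apply h
      rw [hA']
      exact ⟨hyA, hcon⟩
    obtain ⟨⟨n, hn⟩, hy⟩ := mem_iUnion.1 h2
    exact ⟨n, ⟨hxy, hy⟩, I.mono x _ _ (fun z _ hz hz2 => hz hz2.2) hn⟩
  · intro n
    exact hF.inter (I.mH n)
  · intro B hB
    obtain ⟨s, hs, h⟩ := ch_pi I hcq X id measurable_id B hB
    exact ⟨s, hs, h⟩

theorem exists_pi {X : Type} [MeasurableSpace X] [StandardBorelSpace X] {F : X → X → Prop} (G : PG0 X F) :
    ∃ I : PI X F, I.gen = G.gen := by
  classical
  have hall : ∀ x, G.gen x fun _ => True := fun x =>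
    G.mono x _ _ (fun _ _ _ => trivial) (G.bp x ∅ MeasurableSet.empty)
  have hand : ∀ x (P Q : X → Prop), G.gen x P → G.gen x Q → G.gen x fun y => P y ∧ Q y := by
    intro x P Q hP hQ
    have h := G.nat x (fun n => if n = 0 then P else Q) (fun n => by
      by_cases hn : n = 0
      · simp only [hn, if_true]
        exact hP
      · simp only [if_neg hn]
        exact hQ)
    refine G.mono x _ _ (fun y _ hy => ?_) h
    have h0 := hy 0
    have h1 := hy 1
    simp only [if_true] at h0
    simp only [one_ne_zero, if_false] at h1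
    exact ⟨h0, h1⟩
  refine ⟨{
    H := G.H
    gen := G.gen
    all := hall
    mono := G.mono
    nat := G.nat
    proper := G.proper
    base := ?_
    mH := G.mH
    bb := fun A hA => G.cq X id measurable_id (fun p y => (p, y) ∈ A) hA }, rfl⟩
  intro x A hA hlarge
  by_contra hcon
  push Not at hcon
  apply hlarge
  have h1 : G.gen x fun y => ∀ n, (G.gen x fun z => z ∈ G.H n x → z ∈ A) → y ∉ G.H n x := by
    refine G.nat x _ fun n => ?_
    by_cases hn : G.gen x fun z => z ∈ G.H n x → z ∈ A
    · have h2 : G.gen x fun y => y ∉ G.H n x := by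
        by_contra h3
        exact hcon n h3 hn
      exact G.mono x _ _ (fun y _ hy _ => hy) h2
    · exact G.mono x _ _ (fun y _ _ h => absurd h hn) (hall x)
  refine G.mono x _ _ (fun y _ hy hyA => ?_) (hand x _ _ (G.bp x A hA) h1)
  obtain ⟨n, hn1, hn2⟩ := hy.1 hyA
  exact hy.2 n hn2 hn1

end Pool.Agent.H56.GJ
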