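import Pool.Agent.H56.GJ.Def
set_option autoImplicit false

/-!
# H56/GJ/Raw: from ideals of Borel sets to `PI`

`gen (q, x) A`: there is a measurable `B ∈ J x q` with `{y | F x y ∧ ¬ A (q, y)} ⊆ B`. For measurable `A`
this is `{y | (q, y) ∉ A} ∈ J x q` (by `h1`, `h2`, `h4`: `B ∪ {y | ¬ F x y}`). `H n (q, x) = {z | z.2 ∈ H n x q}`.
`J x q` is only used for measurable sets. `∅ ∈ J x q` by `h4`, `h1`.
-/

namespace Pool.Agent.H56.GJ

open Set Pool.Agent.H93.EO Pool.Agent.H56.MG Pool.Agent.H56.GI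

theorem exists_raw {P X : Type} [MeasurableSpace P] [StandardBorelSpace P] [MeasurableSpace X]
    [StandardBorelSpace X] (F : Setoid X) (hF : MeasurableSet {p : X × X | F p.1 p.2})
    (J : X → P → Set (Set X))
    (h1 : ∀ x q (A B : Set X), MeasurableSet A → MeasurableSet B → B ⊆ A → A ∈ J x q → B ∈ J x q)
    (h2 : ∀ x q (A : ℕ → Set X), (∀ n, MeasurableSet (A n)) → (∀ n, A n ∈ J x q) → (⋃ n, A n) ∈ J x q)
    (h3 : ∀ x q, {y | F x y} ∉ J x q) (h4 : ∀ x q, {y | ¬ F x y} ∈ J x q)
    (h5 : ∀ A : Set ((X × P) × X), MeasurableSet A →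
      MeasurableSet {r : X × P | {y | (r, y) ∈ A} ∈ J r.1 r.2})
    (H : ℕ → X → P → Set X) (hH : ∀ n, MeasurableSet {r : (X × P) × X | r.2 ∈ H n r.1.1 r.1.2})
    (h6 : ∀ x q (A : Set X), MeasurableSet A → A ∉ J x q →
      ∃ n, H n x q ∉ J x q ∧ H n x q \ A ∈ J x q) :
    ∃ I : PI (P × X) (fun a b => FP P F a b), ∀ (x : X) (q : P) (A : P × X → Prop),
      I.gen (q, x) A ↔ ∃ B : Set X, MeasurableSet B ∧ B ∈ J x q ∧ ∀ y, F x y → ¬ A (q, y) → y ∈ B := by
  have hFx : ∀ x : X, MeasurableSet {y : X | F x y} := fun x => measurable_prodMk_left hF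
  have hNF : ∀ x : X, MeasurableSet {y : X | ¬ F x y} := fun x => (hFx x).compl
  have hHx : ∀ n x q, MeasurableSet (H n x q) := fun n x q =>
    (measurable_prodMk_left (x := ((x, q) : X × P))) (hH n)
  have hempty : ∀ x q, (∅ : Set X) ∈ J x q := fun x q =>
    h1 x q _ ∅ (hNF x) MeasurableSet.empty (empty_subset _) (h4 x q)
  have hun : ∀ x q (A B : Set X), MeasurableSet A → MeasurableSet B → A ∈ J x q → B ∈ J x q → A ∪ B ∈ J x q := by
    intro x q A B hA hB hAJ hBJ
    have h := h2 x q (fun n => if n = 0 then A else B) (by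
      intro n
      by_cases hn : n = 0
      · simp only [hn, if_true]
        exact hA
      · simp only [hn, if_false]
        exact hB) (by
      intro n
      by_cases hn : n = 0
      · simp only [hn, if_true]
        exact hAJ
      · simp only [hn, if_false]
        exact hBJ)
    have hm : MeasurableSet (⋃ n : ℕ, if n = 0 then A else B) := by
      refine MeasurableSet.iUnion fun n => ?_
      by_cases hn : n = 0
      · simp only [hn, if_true]
        exact hA
      · simp only [hn, if_false]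
        exact hB
    refine h1 x q _ _ hm (hA.union hB) ?_ h
    rintro y (hy | hy)
    · exact mem_iUnion.2 ⟨0, by simpa using hy⟩
    · exact mem_iUnion.2 ⟨1, by simpa using hy⟩
  have key : ∀ x q (A : Set X), MeasurableSet A →
      ((∃ B : Set X, MeasurableSet B ∧ B ∈ J x q ∧ ∀ y, F x y → y ∈ A → y ∈ B) ↔ A ∈ J x q) := by
    intro x q A hA
    constructor
    · rintro ⟨B, hB, hBJ, h⟩
      refine h1 x q (B ∪ {y | ¬ F x y}) A (hB.union (hNF x)) hA ?_ (hun x q _ _ hB (hNF x) hBJ (h4 x q))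
      intro y hy
      by_cases hFy : F x y
      · exact Or.inl (h y hFy hy)
      · exact Or.inr hFy
    · intro h
      exact ⟨A, hA, h, fun y _ hy => hy⟩
  refine ⟨{ H := fun n a => {z : P × X | z.2 ∈ H n a.2 a.1}
            gen := fun a A => ∃ B : Set X, MeasurableSet B ∧ B ∈ J a.2 a.1 ∧
              ∀ y, F a.2 y → ¬ A (a.1, y) → y ∈ B
            all := ?_
            mono := ?_
            nat := ?_
            proper := ?_
            base := ?_
            mH := ?_
            bb := ?_ }, ?_⟩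
  · intro a
    exact ⟨∅, MeasurableSet.empty, hempty _ _, fun y _ h => absurd trivial h⟩
  · rintro a A B h ⟨C, hC, hCJ, h'⟩
    exact ⟨C, hC, hCJ, fun y hy hB => h' y hy fun hA => hB (h (a.1, y) ⟨rfl, hy⟩ hA)⟩
  · intro a A h
    choose C hC hCJ h' using h
    refine ⟨⋃ n, C n, MeasurableSet.iUnion hC, h2 _ _ C hC hCJ, fun y hy hA => ?_⟩
    rw [not_forall] at hA
    obtain ⟨n, hn⟩ := hA
    exact mem_iUnion.2 ⟨n, h' n y hy hn⟩
  · rintro a ⟨C, hC, hCJ, h'⟩
    exact h3 a.2 a.1 (h1 a.2 a.1 C _ hC (hFx a.2) (fun y hy => h' y hy (fun h => h)) hCJ)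
  · intro a A hA hg
    have hA' : MeasurableSet {y : X | (a.1, y) ∈ A} := measurable_prodMk_left hA
    have hnJ : {y : X | (a.1, y) ∈ A} ∉ J a.2 a.1 := fun h =>
      hg ⟨_, hA', h, fun y _ hy => not_not.1 hy⟩
    obtain ⟨n, hn1, hn2⟩ := h6 a.2 a.1 _ hA' hnJ
    refine ⟨n, ?_, ?_⟩
    · rintro ⟨B, hB, hBJ, h⟩
      refine hn1 ((key a.2 a.1 _ (hHx n a.2 a.1)).1 ⟨B, hB, hBJ, fun y hy hyH => h y hy ?_⟩)
      exact fun hc => hc hyH
    · refine ⟨H n a.2 a.1 \ {y : X | (a.1, y) ∈ A}, (hHx n a.2 a.1).diff hA', hn2, fun y _ hy => ?_⟩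
      rw [Classical.not_imp] at hy
      exact ⟨hy.1, hy.2⟩
  · intro n
    have hm : Measurable fun p : (P × X) × (P × X) => (((p.1.2, p.1.1), p.2.2) : (X × P) × X) :=
      ((measurable_snd.comp measurable_fst).prodMk (measurable_fst.comp measurable_fst)).prodMk
        (measurable_snd.comp measurable_snd)
    exact hm (hH n)
  · intro A hA
    have hm : Measurable fun p : (X × P) × X => (((p.1.2, p.1.1), (p.1.2, p.2)) : (P × X) × (P × X)) :=
      ((measurable_snd.comp measurable_fst).prodMk (measurable_fst.comp measurable_fst)).prodMk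
        ((measurable_snd.comp measurable_fst).prodMk measurable_snd)
    have hA2 : MeasurableSet {p : (X × P) × X | (((p.1.2, p.1.1), (p.1.2, p.2)) : (P × X) × (P × X)) ∉ A} :=
      (hm hA).compl
    have h7 := h5 _ hA2
    have hsw : Measurable fun a : P × X => ((a.2, a.1) : X × P) := measurable_snd.prodMk measurable_fst
    have h8 := hsw h7
    refine (congrArg MeasurableSet (Set.ext fun a => ?_)).mp h8
    have h9 : MeasurableSet {y : X | (a, (a.1, y)) ∉ A} := by
      have hm2 : Measurable fun y : X => ((a, (a.1, y)) : (P × X) × (P × X)) :=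
        measurable_const.prodMk (measurable_const.prodMk measurable_id)
      exact (hm2 hA).compl
    exact (key a.2 a.1 _ h9).symm
  · intro x q A
    exact Iff.rfl

end Pool.Agent.H56.GJ
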