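import Pool.Agent.H56.GI.Bp2
import Pool.Agent.H56.GI.Cq2
import Pool.Agent.H56.GI.Kk2
import Pool.Agent.H56.GI.Sel2
import Pool.Agent.H56.GI.Rest
import Pool.Agent.H56.GI.Coh
import Pool.Agent.H56.GI.Pg0
import Pool.Agent.H56.GJ.Pgi
import Pool.Agent.H56.GJ.Raw
set_option autoImplicit false

/-!
# H56/GJ/Fin: the theorem for ideals
-/

namespace Pool.Agent.H56.GJ

open Set Topology TopologicalSpace Pool.Agent.H93.EO Pool.Agent.H56.MG Pool.Agent.H56.GI

theorem main_gj (X P : Type) [MeasurableSpace X] [StandardBorelSpace X] [TopologicalSpace P]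
    [PolishSpace P] [MeasurableSpace P] [BorelSpace P] [Nonempty P] (F : Setoid X)
    (hF : MeasurableSet {p : X × X | F p.1 p.2})
    (J : X → P → Set (Set X))
    (h1 : ∀ x q (A B : Set X), MeasurableSet A → MeasurableSet B → B ⊆ A → A ∈ J x q → B ∈ J x q)
    (h2 : ∀ x q (A : ℕ → Set X), (∀ n, MeasurableSet (A n)) → (∀ n, A n ∈ J x q) → (⋃ n, A n) ∈ J x q)
    (h3 : ∀ x q, {y | F x y} ∉ J x q) (h4 : ∀ x q, {y | ¬ F x y} ∈ J x q)
    (h5 : ∀ A : Set ((X × P) × X), MeasurableSet A →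
      MeasurableSet {r : X × P | {y | (r, y) ∈ A} ∈ J r.1 r.2})
    (H : ℕ → X → P → Set X) (hH : ∀ n, MeasurableSet {r : (X × P) × X | r.2 ∈ H n r.1.1 r.1.2})
    (h6 : ∀ x q (A : Set X), MeasurableSet A → A ∉ J x q →
      ∃ n, H n x q ∉ J x q ∧ H n x q \ A ∈ J x q)
    (h7 : ∀ x x', F x x' → ∀ᶠ q in residual P, ∀ A : Set X, MeasurableSet A → A ∈ J x q → A ∈ J x' q) :
    ∃ (G Z : Type) (_ : TopologicalSpace G) (_ : Group G) (_ : IsTopologicalGroup G)
      (_ : PolishSpace G) (_ : TopologicalSpace Z) (_ : PolishSpace Z) (_ : MeasurableSpace Z)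
      (_ : BorelSpace Z) (_ : MulAction G Z) (_ : ContinuousSMul G Z) (f : X → Z),
      Measurable f ∧ ∀ x x' : X, F x x' ↔ ∃ g : G, g • f x = f x' := by
  obtain ⟨I, hI⟩ := exists_raw F hF J h1 h2 h3 h4 h5 H hH h6
  have hF' : MeasurableSet {r : (P × X) × (P × X) | F r.1.2 r.2.2} :=
    ((measurable_snd.comp measurable_fst).prodMk (measurable_snd.comp measurable_snd)) hF
  have hFP : MeasurableSet {r : (P × X) × (P × X) | FP P F r.1 r.2} :=
    (measurableSet_eq_fun (measurable_fst.comp measurable_fst) (measurable_fst.comp measurable_snd)).inter hF'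
  obtain ⟨G, hG⟩ := exists_pg0i (F := fun a b => FP P F a b) hFP I
  obtain ⟨C, hC⟩ := exists_coh P
  obtain ⟨T, hT'⟩ := exists_pg0 C
  obtain ⟨K, hK⟩ := exists_pi T
  obtain ⟨p⟩ := (inferInstance : Nonempty P)
  have hGG : Sw G G := by
    intro x y R hR h
    rw [hG] at h ⊢
    exact sw_pi I I (cq_pi I) (cq_pi I) x y R hR h
  have hGT : Sw G T := by
    intro x y R hR h
    rw [hG, ← hK] at h ⊢
    exact sw_pi I K (cq_pi I) (cq_pi K) x y R hR h
  have hTG : Sw T G := by
    intro x y R hR h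
    rw [hG, ← hK] at h ⊢
    exact sw_pi K I (cq_pi K) (cq_pi I) x y R hR h
  have hTT : Sw T T := by
    intro x y R hR h
    rw [← hK] at h ⊢
    exact sw_pi K K (cq_pi K) (cq_pi K) x y R hR h
  have cG : Ch G := by
    intro Q _ _ π hπ B hB
    rw [hG]
    exact ch_pi I (cq_pi I) Q π hπ B hB
  have cT : Ch T := by
    intro Q _ _ π hπ B hB
    rw [← hK]
    exact ch_pi K (cq_pi K) Q π hπ B hB
  have hI2 : ∀ x x', F x x' → T.gen p fun q => ∀ A : P × X → Prop, G.gen (q, x) A → G.gen (q, x') A := by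
    intro x x' h
    refine (hT' p (fun q => ∀ A : P × X → Prop, G.gen (q, x) A → G.gen (q, x') A)).2
      ((hC p (fun q => ∀ A : P × X → Prop, G.gen (q, x) A → G.gen (q, x') A)).2 ?_)
    refine Filter.mem_of_superset (h7 x x' h) fun q hq => ?_
    intro A hA
    rw [hG] at hA ⊢
    obtain ⟨B, hB1, hB2, hB3⟩ := (hI x q A).1 hA
    exact (hI x' q A).2 ⟨B, hB1, hq B hB1 hB2, fun y hy hy' => hB3 y (F.trans h hy) hy'⟩
  have hE : Equivalence fun a b : P × X => F a.2 b.2 :=
    ⟨fun a => F.refl a.2, fun h => F.symm h, fun h h' => F.trans h h'⟩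
  obtain ⟨Gr, Zr, i1, i2, i3, i4, i5, i6, i7, i8, i9, i10, f, hf, hf1⟩ := main_pg hE hF'
    { H := H2 G T p
      gen := gen2 G T p
      sub := fun n a b h => sub2 G T p n a b h
      mono := fun a A B h hA => mono2 G T p a A B h hA
      nat := fun a A h => nat2 G T p a A h
      proper := fun a => proper2 G T p a
      inv := fun a b A h hA => inv2 G T p hI2 a b A h hA
      bp := fun a A hA => bp2 G T p a A hA
      mH := fun n => mH2 G T p n
      cq := fun Q _ _ π hπ A hA => cq2 G T p Q π hπ A hA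
      ku := fun a R hR h => ku2 G T hGG hGT hTG hTT p a R hR h
      sel := fun B hB => sel2 G T cG cT p B hB }
  refine ⟨Gr, Zr, i1, i2, i3, i4, i5, i6, i7, i8, i9, i10, fun x => f (p, x),
    hf.comp (measurable_const.prodMk measurable_id), fun x x' => ?_⟩
  rw [← hf1]

end Pool.Agent.H56.GJ
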